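import Pool.Agent.Results.MP_bbc1fa_nt.RandomProducts
import Pool.Agent.V35.WB

/-!
# The four exponentials conjecture for groups of rational numbers with ALL exponents near almost every point or direction

For an integral matrix `a` of type `n × k` and positive rational numbers `q_{j,r}`, `z_j` consider the `n` products
`x_j = z_j ∏_r q_{j,r} ^ a_{j,r}`, `j ≤ n`, where for each `j` the `q_{j,r}` are multiplicatively independent. The starting
theorem `RandomProducts` says that few matrices `a` in a box are exceptional for the four exponentials conjecture in the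
group generated by the `x_j`, also relative to `m` given numbers `b_1, …, b_m`; it says nothing about matrices in given
regions. Here: there is ONE set `E` of directions `α ∈ ℝ ^ (n k)` such that for all `α` outside `E`, for ALL systems of
rational numbers `q, z, b` at once, no matrix `a` in the windows of radius `v_N ^ θ` around `v_N α` is exceptional, `N`
large; and only finitely many matrices `a` near the whole ray through `α` are exceptional. For `θ < δ / n` (`v_N`
geometric) the set `E` is a null set, and its dimension is at most `(n k - δ k) / (1 - θ)`; for the rays it is at most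
`1 + (n k - δ k) / (1 - θ)`. Here `δ > 0` depends only on `n` and `m`.
-/

set_option autoImplicit false

open Module MeasureTheory

namespace Pool.Agent.Results.MP_bbc1fa_nt.ExponentsInWindows

open RandomProducts Pool.Agent.V35.WM Pool.Agent.V35.WB

/-- positive rational numbers `q_{j,r}`, for each `j` multiplicatively independent, and positive rational numbers `z_j` and
`b_i` -/
structure Data (n m k : ℕ) where
  q : Fin n → Fin k → ℚ
  z : Fin n → ℚ
  b : Fin m → ℚ
  q_pos : ∀ j r, 0 < q j r
  z_pos : ∀ j, 0 < z j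
  b_pos : ∀ i, 0 < b i
  indep : ∀ j, LinearIndependent ℚ (fun r => Real.log (q j r))

/-- the rational space generated by the logarithms of the `b_i` -/
noncomputable def Data.V {n m k : ℕ} (d : Data n m k) : Submodule ℚ ℝ :=
  Submodule.span ℚ (Set.range fun i => Real.log (d.b i))

/-- the logarithms of the products `x_j = z_j ∏_r q_{j,r} ^ a_{j,r}` -/
noncomputable def Data.logs {n m k : ℕ} (d : Data n m k) (a : Fin n × Fin k → ℤ) (j : Fin n) : ℝ :=
  Real.log (d.z j) + ∑ r, (a (j, r) : ℝ) * Real.log (d.q j r)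

/-- The numbers `log x_j` are linearly independent over `ℚ` modulo `V`, and each `2 × 2` matrix with entries in the
rational space generated by the `log b_i` and the `log x_j`, not all in `V`, with linearly independent rows and linearly
independent columns over `ℚ` is nonsingular. -/
def Data.Good {n m k : ℕ} (d : Data n m k) (a : Fin n × Fin k → ℤ) : Prop :=
  finrank ℚ (d.V ⊔ Submodule.span ℚ (Set.range (d.logs a)) : Submodule ℚ ℝ) = finrank ℚ d.V + n ∧
    ∀ M : Matrix (Fin 2) (Fin 2) ℝ, (∀ i j, M i j ∈ d.V ⊔ Submodule.span ℚ (Set.range (d.logs a))) →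
      (∃ i j, M i j ∉ d.V) → LinearIndependent ℚ (fun i : Fin 2 => fun j : Fin 2 => M i j) →
      LinearIndependent ℚ (fun j : Fin 2 => fun i : Fin 2 => M i j) → M.det ≠ 0

lemma countable_data (n m k : ℕ) : Countable (Data n m k) := by
  have h : Function.Injective (fun d : Data n m k => (d.q, d.z, d.b)) := by
    intro d e hde
    cases d
    cases e
    simp only [Prod.mk.injEq] at hde
    obtain ⟨h1, h2, h3⟩ := hde
    subst h1 h2 h3
    rfl
  exact h.countable

/-- **Theorem.** Let `n ≥ 1` and `m` be given. There are `k₀` and `0 < δ ≤ n` such that for all `k ≥ k₀`, `k ≥ 1`: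
(1) for all sequences `v ≥ 1` of exponent of convergence at most `τ ≥ 0` and all `θ < 1` there is a set `E` of real
`n × k` matrices of Hausdorff dimension at most `(n k - δ k + τ) / (1 - θ)`, and of Lebesgue measure zero if
`θ < 1 - (n k - δ k + τ) / (n k)`, such that for all `α` outside `E` and ALL systems `d` there is `N₀` such that for all
`N ≥ N₀` ALL integral matrices `a` with `‖a - v_N α‖ ≤ (v_N) ^ θ` (maximum norm) are good for `d`; (2) for `0 ≤ θ < 1` there
is a set `E` of dimension at most `1 + (n k - δ k) / (1 - θ)`, and of measure zero if this is less than `n k`, such that for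
all `α` outside `E` and ALL systems `d` only finitely many integral matrices `a` which satisfy `‖a - r α‖ ≤ r ^ θ` for some
real `r > 0` are not good for `d`. The exponent of convergence of `b ^ N`, `b > 1`, is at most `0`. -/
theorem result (n m : ℕ) (hn : 1 ≤ n) : ∃ (k₀ : ℕ) (δ : ℝ), 0 < δ ∧ δ ≤ n ∧ ∀ k : ℕ, k₀ ≤ k → 1 ≤ k →
    (∀ (v : ℕ → ℝ) (τ θ : ℝ), (∀ N, 1 ≤ v N) → 0 ≤ τ → ExpLe v τ → θ < 1 →
      ∃ E : Set (Fin n × Fin k → ℝ), dimH E ≤ ENNReal.ofReal ((((n : ℝ) * k - δ * k) + τ) / (1 - θ)) ∧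
        (θ < 1 - (((n : ℝ) * k - δ * k) + τ) / ((n : ℝ) * k) → volume E = 0) ∧
        ∀ α : Fin n × Fin k → ℝ, α ∉ E → ∀ d : Data n m k, ∃ N₀ : ℕ, ∀ N : ℕ, N₀ ≤ N →
          ∀ a : Fin n × Fin k → ℤ, ‖vec a - v N • α‖ ≤ (v N) ^ θ → d.Good a) ∧
    (∀ θ : ℝ, 0 ≤ θ → θ < 1 →
      ∃ E : Set (Fin n × Fin k → ℝ), dimH E ≤ ENNReal.ofReal (1 + ((n : ℝ) * k - δ * k) / (1 - θ)) ∧
        (1 + ((n : ℝ) * k - δ * k) / (1 - θ) < (n : ℝ) * k → volume E = 0) ∧
        ∀ α : Fin n × Fin k → ℝ, α ∉ E → ∀ d : Data n m k,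
          {a : Fin n × Fin k → ℤ | ¬ d.Good a ∧ ∃ r : ℝ, 0 < r ∧ ‖vec a - r • α‖ ≤ r ^ θ}.Finite) ∧
    (∀ b : ℝ, 1 < b → ExpLe (fun N : ℕ => b ^ N) 0) := by
  classical
  obtain ⟨k₀, C, δ₀, hδ₀, hmain⟩ := RandomProducts.result n m
  have hn0 : (0 : ℝ) < n := by exact_mod_cast hn
  refine ⟨k₀, min δ₀ n, lt_min hδ₀ hn0, min_le_right _ _, fun k hk hk1 => ?_⟩
  set δ : ℝ := min δ₀ n with hδ
  have hδn : δ ≤ n := min_le_right _ _
  have hδδ : δ ≤ δ₀ := min_le_left _ _
  have hk0 : (0 : ℝ) < k := by exact_mod_cast hk1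
  have hs : 0 ≤ (n : ℝ) * k - δ * k := by
    have := mul_le_mul_of_nonneg_right hδn hk0.le
    linarith
  have hcount : ∀ d : Data n m k, ∀ ε : ℝ, 0 < ε → ∃ C' : ℝ, ∀ H : ℕ, 1 ≤ H →
      ({c : Fin n × Fin k → ℤ | (∀ i, |c i| ≤ (H : ℤ)) ∧ ¬ d.Good c}.ncard : ℝ) ≤
        C' * (H : ℝ) ^ (((n : ℝ) * k - δ * k) + ε) := by
    intro d ε hε
    refine ⟨C * 3 ^ ((n : ℝ) * k - δ * k), fun H hH => ?_⟩
    have hH0 : (0 : ℝ) < H := by exact_mod_cast hH
    have hH1 : (1 : ℝ) ≤ H := by exact_mod_cast hH
    set A : Finset ℚ := (Finset.Icc (-(H : ℤ)) H).image (fun x : ℤ => (x : ℚ)) with hA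
    have hAc : A.card ≤ 3 * H := by
      refine Finset.card_image_le.trans ?_
      rw [Int.card_Icc]
      omega
    have hAne : A.Nonempty := by
      refine ⟨0, ?_⟩
      rw [hA, Finset.mem_image]
      exact ⟨0, Finset.mem_Icc.2 ⟨by omega, by omega⟩, by norm_num⟩
    have hVfin : Module.Finite ℚ d.V := by
      unfold Data.V
      exact Module.Finite.span_of_finite ℚ (Set.finite_range _)
    have hVm : finrank ℚ d.V ≤ m := by
      have h1 := finrank_range_le_card (R := ℚ) (b := fun i => Real.log (d.b i))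
      rw [Fintype.card_fin] at h1
      exact h1
    have h1 := hmain k hk d.q d.q_pos d.indep A hAne d.V hVfin hVm (fun j => Real.log (d.z j))
    have h2 : ({c : Fin n × Fin k → ℤ | (∀ i, |c i| ≤ (H : ℤ)) ∧ ¬ d.Good c}.ncard : ℝ) ≤
        (((Fintype.piFinset fun _ : Fin n => Fintype.piFinset fun _ : Fin k => A).filter
          (fun a : Fin n → Fin k → ℚ => ¬ (finrank ℚ (adjoin d.V (RandomProducts.logs (fun j => Real.log (d.z j)) d.q a)) =
            finrank ℚ d.V + n ∧ FourExponentials d.V (adjoin d.V (RandomProducts.logs (fun j => Real.log (d.z j)) d.q a))))).card : ℝ) := by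
      rw [← Set.ncard_coe_finset]
      apply Nat.cast_le.2
      apply Set.ncard_le_ncard_of_injOn (fun (c : Fin n × Fin k → ℤ) (j : Fin n) (r : Fin k) => ((c (j, r) : ℤ) : ℚ))
      · rintro c ⟨hc, hg⟩
        rw [Finset.mem_coe, Finset.mem_filter, Fintype.mem_piFinset]
        refine ⟨fun j => Fintype.mem_piFinset.2 fun r => ?_, fun hgood => hg ?_⟩
        · rw [hA, Finset.mem_image]
          exact ⟨c (j, r), Finset.mem_Icc.2 (abs_le.1 (hc (j, r))), rfl⟩
        · have he : RandomProducts.logs (fun j => Real.log (d.z j)) d.q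
              (fun (j : Fin n) (r : Fin k) => ((c (j, r) : ℤ) : ℚ)) = d.logs c := by
            funext j
            unfold RandomProducts.logs Data.logs
            congr 1
          rw [he] at hgood
          exact hgood
      · intro c _ c' _ h
        funext x
        obtain ⟨j, r⟩ := x
        have h3 : ((c (j, r) : ℤ) : ℚ) = ((c' (j, r) : ℤ) : ℚ) := congrFun (congrFun h j) r
        exact_mod_cast h3
    refine h2.trans (h1.trans ?_)
    have hA1 : (1 : ℝ) ≤ A.card := by exact_mod_cast hAne.card_pos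
    have hA3 : (A.card : ℝ) ≤ 3 * H := by exact_mod_cast hAc
    calc (C : ℝ) * (A.card : ℝ) ^ (((n : ℝ) * k) - δ₀ * k)
        ≤ C * (A.card : ℝ) ^ (((n : ℝ) * k) - δ * k) := by
          apply mul_le_mul_of_nonneg_left _ (Nat.cast_nonneg _)
          apply Real.rpow_le_rpow_of_exponent_le hA1
          have := mul_le_mul_of_nonneg_right hδδ hk0.le
          linarith
      _ ≤ C * (3 * (H : ℝ)) ^ (((n : ℝ) * k) - δ * k) := by
          apply mul_le_mul_of_nonneg_left _ (Nat.cast_nonneg _)
          exact Real.rpow_le_rpow (by linarith) hA3 hs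
      _ = (C * 3 ^ ((n : ℝ) * k - δ * k)) * (H : ℝ) ^ ((n : ℝ) * k - δ * k) := by
          rw [Real.mul_rpow (by norm_num) hH0.le]
          ring
      _ ≤ (C * 3 ^ ((n : ℝ) * k - δ * k)) * (H : ℝ) ^ (((n : ℝ) * k - δ * k) + ε) := by
          apply mul_le_mul_of_nonneg_left _ (by positivity)
          exact Real.rpow_le_rpow_of_exponent_le hH1 (by linarith)
  have hne : Nonempty (Fin n × Fin k) := ⟨(⟨0, by omega⟩, ⟨0, by omega⟩)⟩
  have hcard : ((Fintype.card (Fin n × Fin k) : ℕ) : ℝ) = (n : ℝ) * k := by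
    rw [Fintype.card_prod, Fintype.card_fin, Fintype.card_fin]
    push_cast
    rfl
  have hcd : Countable (Data n m k) := countable_data n m k
  refine ⟨fun v τ θ hv hτ hE hθ => ?_, fun θ hθ0 hθ1 => ?_, fun b hb => expLe_geom b hb⟩
  · choose E hE1 hE2 hE3 using fun d : Data n m k =>
      windows_of_box (P := fun c => ¬ d.Good c) hs (hcount d) v τ θ hv hτ hE hθ
    refine ⟨⋃ d, E d, ?_, fun hlt => ?_, fun α hα d => ?_⟩
    · rw [dimH_iUnion]
      exact iSup_le hE1
    · rw [measure_iUnion_null_iff]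
      intro d
      apply hE2 d
      rw [hcard]
      exact hlt
    · obtain ⟨N₀, h⟩ := hE3 d α (fun hc => hα (Set.mem_iUnion.2 ⟨d, hc⟩))
      exact ⟨N₀, fun N hN a ha => not_not.1 (h N hN a ha)⟩
  · choose E hE1 hE2 hE3 using fun d : Data n m k =>
      rays_of_box (P := fun c => ¬ d.Good c) hs (hcount d) θ hθ0 hθ1
    refine ⟨⋃ d, E d, ?_, fun hlt => ?_, fun α hα d => ?_⟩
    · rw [dimH_iUnion]
      exact iSup_le hE1
    · rw [measure_iUnion_null_iff]
      intro d
      apply hE2 d
      rw [hcard]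
      exact hlt
    · exact hE3 d α (fun hc => hα (Set.mem_iUnion.2 ⟨d, hc⟩))

end Pool.Agent.Results.MP_bbc1fa_nt.ExponentsInWindows
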