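import Pool.Agent.Results.MP_bbc1fa_nt.AlmostAllTuples
import Pool.Agent.H107.MetricFam
import Pool.Agent.H2N.NearSpace

/-!
# The four exponentials conjecture for the logarithms attached to ALL rational points near almost every real point

Let `x_1, …, x_k` be distinct rational numbers, `a < b` with `a + x_i > 0`, `n ≥ 1` and `A ≥ 0`. For every
`σ > (n + 1 - 1 / (3 ^ (k n) + 1)) / n` there is a real number `B` such that for almost every `z ∈ (a, b) ^ n` ALL rational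
points `(u_1 / N, …, u_n / N)` with `|u_j / N - z_j| ≤ N ^ (-σ)`, except for finitely many `(N, u)`, satisfy: every `2 × 2`
matrix `(log α_ij)`, where the `α_ij` are products `N ^ c_0 ∏ (u_j + x_i N) ^ c_(j,i)` with integral exponents of absolute
value at most `N ^ A`, with `ℚ`-linearly independent rows and `ℚ`-linearly independent columns, has a determinant of
absolute value greater than `N ^ (-B)`. Exponents `σ < (n + 1) / n` are allowed; for these there are infinitely many such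
rational points near every `z`, by Dirichlet's theorem.
-/

set_option autoImplicit false

namespace Pool.Agent.Results.MP_bbc1fa_nt.RationalPointsNear

open MeasureTheory Filter Topology
open Pool.Agent.Results.MP_bbc1fa_nt.AlmostAllTuples (Products logMatrix Exceptional)

/-- Every `2 × 2` matrix `(log α_ij)`, `α_ij` in `Products x N u (N ^ A)` (the products `N ^ c_0 ∏ (u_j + x_i N) ^ c_(j,i)`
with integral exponents of absolute value at most `N ^ A`), with `ℚ`-linearly independent rows and `ℚ`-linearly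
independent columns has a determinant of absolute value greater than `N ^ (-B)`. -/
def Measured {n k : ℕ} (x : Fin k → ℚ) (A B : ℝ) (N : ℕ) (u : Fin n → ℤ) : Prop :=
  ∀ M : Matrix (Fin 2) (Fin 2) ℚ, (∀ i j, M i j ∈ Products x N u ((N : ℝ) ^ A)) →
    LinearIndependent ℚ (fun i : Fin 2 => fun j : Fin 2 => logMatrix M i j) →
    LinearIndependent ℚ (fun j : Fin 2 => fun i : Fin 2 => logMatrix M i j) →
    (N : ℝ) ^ (-B) < |(logMatrix M).det|

/-- the height of the point `(N, u)` -/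
noncomputable def ht {n : ℕ} (p : ℕ × (Fin n → ℤ)) : ℝ := max 1 (p.1 : ℝ)

theorem one_le_ht {n : ℕ} (p : ℕ × (Fin n → ℤ)) : 1 ≤ ht p := le_max_left _ _

theorem ht_eq {n : ℕ} {p : ℕ × (Fin n → ℤ)} (hp : 1 ≤ p.1) : ht p = p.1 :=
  max_eq_right (by exact_mod_cast hp)

/-- the exceptional points -/
def Bad {k : ℕ} (n : ℕ) (x : Fin k → ℚ) (a b A B : ℝ) : Set (ℕ × (Fin n → ℤ)) :=
  {p | 1 ≤ p.1 ∧ p.2 ∈ Exceptional n x a b A B p.1}

/-- the number of the exceptional points with denominator at most `X` -/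
theorem count {n : ℕ} {S : ℕ → Set (Fin n → ℤ)} {C s : ℝ} (hs : 0 ≤ s)
    (h : ∀ N : ℕ, 1 ≤ N → (S N).Finite ∧ ((S N).ncard : ℝ) ≤ C * (N : ℝ) ^ s) (ε : ℝ) (hε : 0 < ε) :
    ∃ C' : ℝ, ∀ X : ℝ, 1 ≤ X →
      {p : ℕ × (Fin n → ℤ) | p ∈ {p : ℕ × (Fin n → ℤ) | 1 ≤ p.1 ∧ p.2 ∈ S p.1} ∧ ht p ≤ X}.Finite ∧
      ({p : ℕ × (Fin n → ℤ) | p ∈ {p : ℕ × (Fin n → ℤ) | 1 ≤ p.1 ∧ p.2 ∈ S p.1} ∧ ht p ≤ X}.ncard : ℝ) ≤
        C' * X ^ (s + 1 + ε) := by
  classical
  have hf : ∀ N : ℕ, {u | 1 ≤ N ∧ u ∈ S N}.Finite := by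
    intro N
    by_cases hN : 1 ≤ N
    · exact (h N hN).1.subset fun u hu => hu.2
    · exact Set.finite_empty.subset fun u hu => absurd hu.1 hN
  refine ⟨2 * |C|, fun X hX => ?_⟩
  have hX0 : 0 < X := by linarith
  set W : ℕ → Finset (ℕ × (Fin n → ℤ)) := fun N => (hf N).toFinset.image fun u => (N, u) with hW
  have hsub : {p : ℕ × (Fin n → ℤ) | p ∈ {p : ℕ × (Fin n → ℤ) | 1 ≤ p.1 ∧ p.2 ∈ S p.1} ∧ ht p ≤ X} ⊆
      (((Finset.range (⌊X⌋₊ + 1)).biUnion W : Finset (ℕ × (Fin n → ℤ))) : Set (ℕ × (Fin n → ℤ))) := by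
    rintro ⟨N, u⟩ ⟨⟨h1, h2⟩, h3⟩
    rw [Finset.coe_biUnion, Set.mem_iUnion₂]
    refine ⟨N, ?_, ?_⟩
    · rw [Finset.coe_range, Set.mem_Iio, Nat.lt_succ_iff]
      exact Nat.le_floor ((le_max_right _ _).trans h3)
    · rw [Finset.mem_coe, hW]
      exact Finset.mem_image_of_mem _ ((hf N).mem_toFinset.2 ⟨h1, h2⟩)
  refine ⟨(Finset.finite_toSet _).subset hsub, ?_⟩
  have h1 : ({p : ℕ × (Fin n → ℤ) | p ∈ {p : ℕ × (Fin n → ℤ) | 1 ≤ p.1 ∧ p.2 ∈ S p.1} ∧ ht p ≤ X}.ncard : ℝ) ≤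
      (((Finset.range (⌊X⌋₊ + 1)).biUnion W).card : ℝ) := by
    have h2 := Set.ncard_le_ncard hsub (Finset.finite_toSet _)
    rw [Set.ncard_coe_finset] at h2
    exact_mod_cast h2
  have h3 : (((Finset.range (⌊X⌋₊ + 1)).biUnion W).card : ℝ) ≤
      ∑ N ∈ Finset.range (⌊X⌋₊ + 1), ((W N).card : ℝ) := by
    exact_mod_cast Finset.card_biUnion_le
  have h5 : ∀ N ∈ Finset.range (⌊X⌋₊ + 1), ((W N).card : ℝ) ≤ |C| * X ^ s := by
    intro N hN
    have h6 : (W N).card ≤ {u | 1 ≤ N ∧ u ∈ S N}.ncard := by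
      rw [hW, Set.ncard_eq_toFinset_card _ (hf N)]
      exact Finset.card_image_le
    have h7 : ((W N).card : ℝ) ≤ ({u | 1 ≤ N ∧ u ∈ S N}.ncard : ℝ) := by exact_mod_cast h6
    refine h7.trans ?_
    by_cases hN1 : 1 ≤ N
    · obtain ⟨g1, g2⟩ := h N hN1
      have h8 : ({u | 1 ≤ N ∧ u ∈ S N}.ncard : ℝ) ≤ ((S N).ncard : ℝ) := by
        exact_mod_cast Set.ncard_le_ncard (show {u | 1 ≤ N ∧ u ∈ S N} ⊆ S N from fun u hu => hu.2) g1
      refine (h8.trans g2).trans ?_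
      have h9 : (N : ℝ) ≤ X := by
        have h10 : N ≤ ⌊X⌋₊ := by
          rw [Finset.mem_range] at hN
          omega
        exact le_trans (by exact_mod_cast h10) (Nat.floor_le hX0.le)
      exact mul_le_mul (le_abs_self _) (Real.rpow_le_rpow (by positivity) h9 hs) (by positivity) (abs_nonneg _)
    · have h8 : {u | 1 ≤ N ∧ u ∈ S N} = (∅ : Set (Fin n → ℤ)) := by
        ext u
        simp [hN1]
      rw [h8, Set.ncard_empty, Nat.cast_zero]
      positivity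
  have h6 : ∑ N ∈ Finset.range (⌊X⌋₊ + 1), ((W N).card : ℝ) ≤ ((⌊X⌋₊ : ℝ) + 1) * (|C| * X ^ s) := by
    have h7 := Finset.sum_le_card_nsmul _ _ _ h5
    rw [Finset.card_range, nsmul_eq_mul] at h7
    push_cast at h7
    exact h7
  have h7 : (⌊X⌋₊ : ℝ) + 1 ≤ 2 * X := by
    have := Nat.floor_le hX0.le
    linarith
  calc ({p : ℕ × (Fin n → ℤ) | p ∈ {p : ℕ × (Fin n → ℤ) | 1 ≤ p.1 ∧ p.2 ∈ S p.1} ∧ ht p ≤ X}.ncard : ℝ)
      ≤ ((⌊X⌋₊ : ℝ) + 1) * (|C| * X ^ s) := (h1.trans h3).trans h6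
    _ ≤ 2 * X * (|C| * X ^ s) := mul_le_mul_of_nonneg_right h7 (by positivity)
    _ = 2 * |C| * X ^ (s + 1) := by
        rw [Real.rpow_add_one hX0.ne']
        ring
    _ ≤ 2 * |C| * X ^ (s + 1 + ε) :=
        mul_le_mul_of_nonneg_left (Real.rpow_le_rpow_of_exponent_le hX (by linarith)) (by positivity)

/-- **Theorem.** Let `x_1, …, x_k` be distinct rational numbers, `a < b` with `a + x_i > 0`, `n ≥ 1` and `A ≥ 0`.
(1) For every `σ > (n + 1 - 1 / (3 ^ (k n) + 1)) / n` there is a real number `B` such that for almost every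
`z ∈ (a, b) ^ n`, for all but finitely many `(N, u)` with `N ≥ 1` and `|u_j / N - z_j| ≤ N ^ (-σ)` for all `j`, every
`2 × 2` matrix of logarithms of products `N ^ c_0 ∏ (u_j + x_i N) ^ c_(j,i)` with integral exponents of absolute value at
most `N ^ A`, with `ℚ`-linearly independent rows and `ℚ`-linearly independent columns, has a determinant of absolute value
greater than `N ^ (-B)`.
(2) For every `ρ > 1 - 1 / (3 ^ (k n) + 1)` there is `B` such that for every map `φ` of the pairs `(N, u)` to a metric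
space `M` and `σ > 0` there is a set `S ⊆ M` of Hausdorff dimension at most `(n + ρ) / σ` such that for all `z` outside `S`
the same property holds for all but finitely many `(N, u)` with `N ≥ 1`, `a ≤ u_j / N ≤ b` for all `j` and
`dist (φ (N, u), z) ≤ N ^ (-σ)`. -/
theorem result (n k : ℕ) (hn : 1 ≤ n) (x : Fin k → ℚ) (hx : Function.Injective x) (a b : ℝ) (hab : a < b)
    (hpos : ∀ i, 0 < a + x i) (A : ℝ) (hA : 0 ≤ A) :
    (∀ σ : ℝ, ((n : ℝ) + 1 - 1 / ((3 : ℝ) ^ (k * n) + 1)) / n < σ → ∃ B : ℝ,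
      ∀ᵐ z : Fin n → ℝ, (∀ j, a < z j ∧ z j < b) →
        {p : ℕ × (Fin n → ℤ) | 1 ≤ p.1 ∧ (∀ j, |(p.2 j : ℝ) / p.1 - z j| ≤ (p.1 : ℝ) ^ (-σ)) ∧
          ¬ Measured x A B p.1 p.2}.Finite) ∧
    (∀ ρ : ℝ, 1 - 1 / ((3 : ℝ) ^ (k * n) + 1) < ρ → ∃ B : ℝ,
      ∀ (M : Type) [MetricSpace M] (φ : ℕ × (Fin n → ℤ) → M) (σ : ℝ), 0 < σ →
        ∃ S : Set M, dimH S ≤ ENNReal.ofReal (((n : ℝ) + ρ) / σ) ∧ ∀ z : M, z ∉ S →
          {p : ℕ × (Fin n → ℤ) | 1 ≤ p.1 ∧ (∀ j, a * p.1 ≤ p.2 j ∧ p.2 j ≤ b * p.1) ∧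
            dist (φ p) z ≤ (p.1 : ℝ) ^ (-σ) ∧ ¬ Measured x A B p.1 p.2}.Finite) := by
  classical
  have hn1 : (1 : ℝ) ≤ n := by exact_mod_cast hn
  have hfr : Module.finrank ℝ (Fin n → ℝ) = n := by
    rw [Module.finrank_pi, Fintype.card_fin]
  have h3 : 1 / ((3 : ℝ) ^ (k * n) + 1) ≤ 1 := by
    have h4 : (1 : ℝ) ≤ (3 : ℝ) ^ (k * n) := one_le_pow₀ (by norm_num)
    rw [div_le_one (by positivity)]
    linarith
  have hbad : ∀ (B : ℝ) (p : ℕ × (Fin n → ℤ)), 1 ≤ p.1 → (∀ j, a * p.1 ≤ p.2 j ∧ p.2 j ≤ b * p.1) →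
      ¬ Measured x A B p.1 p.2 → p ∈ Bad n x a b A B := by
    intro B p h1 h2 h4
    unfold Measured at h4
    push Not at h4
    obtain ⟨M, g1, g2, g3, g4⟩ := h4
    exact ⟨h1, h2, M, g1, g2, g3, g4⟩
  refine ⟨fun σ hσ => ?_, fun ρ hρ => ?_⟩
  · have hσn : (n : ℝ) + 1 - 1 / ((3 : ℝ) ^ (k * n) + 1) < n * σ := by
      rw [div_lt_iff₀ (by linarith)] at hσ
      linarith
    have hσ0 : 0 < σ := lt_of_le_of_lt (div_nonneg (by linarith) (by linarith)) hσ
    set ρ : ℝ := (n * σ - n + (1 - 1 / ((3 : ℝ) ^ (k * n) + 1))) / 2 with hρdef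
    have hρ : 1 - 1 / ((3 : ℝ) ^ (k * n) + 1) < ρ := by
      rw [hρdef]
      linarith
    have hρσ : (n : ℝ) + ρ < n * σ := by
      rw [hρdef]
      linarith
    obtain ⟨B, C, hC⟩ := AlmostAllTuples.result n k hn x hx a b hab hpos A ρ hA hρ
    refine ⟨B, ?_⟩
    have hs0 : (0 : ℝ) ≤ (n : ℝ) - 1 + ρ := by linarith
    have h1 := Pool.Agent.H2N.ae_family_space (volume : Measure (Fin n → ℝ)) (by rw [hfr]; omega)
      (fun p : ℕ × (Fin n → ℤ) => fun j : Fin n => (p.2 j : ℝ) / (p.1 : ℝ)) ht one_le_ht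
      (s := (n : ℝ) - 1 + ρ + 1) (by linarith) (J := Unit) (fun _ => Bad n x a b A B)
      (fun _ ε hε => count hs0 hC ε hε)
    rw [hfr] at h1
    filter_upwards [h1] with z hz hzab
    -- large denominators: the point is in the box
    obtain ⟨τ, hτ0, hτ⟩ : ∃ τ : ℝ, 0 < τ ∧ ∀ j, a + τ ≤ z j ∧ z j + τ ≤ b := by
      have hne : (Finset.univ : Finset (Fin n)).Nonempty := ⟨⟨0, hn⟩, Finset.mem_univ _⟩
      obtain ⟨j0, -, hj0⟩ := Finset.exists_min_image (Finset.univ : Finset (Fin n))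
        (fun j => min (z j - a) (b - z j)) hne
      refine ⟨min (z j0 - a) (b - z j0), lt_min (by linarith [(hzab j0).1]) (by linarith [(hzab j0).2]),
        fun j => ?_⟩
      have h4 := hj0 j (Finset.mem_univ _)
      have h5 := h4.trans (min_le_left _ _)
      have h6 := h4.trans (min_le_right _ _)
      constructor <;> linarith
    have hT : ∀ᶠ t : ℕ in atTop, ((t : ℝ)) ^ (-σ) ≤ τ :=
      ((tendsto_rpow_neg_atTop hσ0).comp tendsto_natCast_atTop_atTop).eventually_le_const hτ0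
    obtain ⟨T₀, hT₀⟩ := eventually_atTop.1 hT
    -- small denominators: finitely many points
    have hbox : {p : ℕ × (Fin n → ℤ) | p.1 < T₀ ∧ 1 ≤ p.1 ∧
        ∀ j, |(p.2 j : ℝ) / p.1 - z j| ≤ (p.1 : ℝ) ^ (-σ)}.Finite := by
      set R : ℤ := ⌈(T₀ : ℝ) * (‖z‖ + 1)⌉ with hR
      refine (Finset.finite_toSet ((Finset.range T₀) ×ˢ (Fintype.piFinset fun _ : Fin n => Finset.Icc (-R) R))).subset ?_
      rintro ⟨N, u⟩ ⟨g1, g2, g3⟩
      rw [Finset.mem_coe, Finset.mem_product, Finset.mem_range, Fintype.mem_piFinset]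
      refine ⟨g1, fun j => Finset.mem_Icc.2 (abs_le.1 ?_)⟩
      have hN1 : (1 : ℝ) ≤ N := by exact_mod_cast g2
      have hN0 : (0 : ℝ) < N := by linarith
      have h4 : |(u j : ℝ) / N - z j| ≤ 1 := (g3 j).trans (Real.rpow_le_one_of_one_le_of_nonpos hN1 (by linarith))
      have h5 : |z j| ≤ ‖z‖ := norm_le_pi_norm z j
      have h6 : |(u j : ℝ) / N| ≤ ‖z‖ + 1 := by
        calc |(u j : ℝ) / N| = |((u j : ℝ) / N - z j) + z j| := by rw [sub_add_cancel]
          _ ≤ |(u j : ℝ) / N - z j| + |z j| := abs_add_le _ _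
          _ ≤ ‖z‖ + 1 := by linarith
      rw [abs_div, abs_of_pos hN0, div_le_iff₀ hN0] at h6
      have h7 : (N : ℝ) ≤ T₀ := by exact_mod_cast g1.le
      have h8 : |(u j : ℝ)| ≤ (T₀ : ℝ) * (‖z‖ + 1) := by
        refine h6.trans ?_
        rw [mul_comm]
        exact mul_le_mul_of_nonneg_right h7 (by positivity)
      have h9 : |(u j : ℝ)| ≤ (R : ℝ) := h8.trans (Int.le_ceil _)
      exact_mod_cast h9
    refine (hbox.union (hz σ ?_ ())).subset ?_
    · rw [div_lt_iff₀ (by linarith)]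
      linarith
    · rintro p ⟨hp1, hnear, hM⟩
      by_cases hpT : p.1 < T₀
      · exact Or.inl ⟨hpT, hp1, hnear⟩
      · right
        have hτ1 := hT₀ p.1 (not_lt.1 hpT)
        have hN0 : (0 : ℝ) < p.1 := by exact_mod_cast hp1
        refine ⟨hbad B p hp1 (fun j => ?_) hM, ?_⟩
        · have h4 := abs_le.1 ((hnear j).trans hτ1)
          have h5 := hτ j
          constructor
          · rw [← le_div_iff₀ hN0]
            linarith [h4.1]
          · rw [← div_le_iff₀ hN0]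
            linarith [h4.2]
        · show dist _ z ≤ ht p ^ (-σ)
          rw [ht_eq hp1, dist_pi_le_iff (by positivity)]
          exact hnear
  · obtain ⟨B, C, hC⟩ := AlmostAllTuples.result n k hn x hx a b hab hpos A ρ hA hρ
    refine ⟨B, fun M _ φ σ hσ => ?_⟩
    have hs0 : (0 : ℝ) ≤ (n : ℝ) - 1 + ρ := by linarith
    obtain ⟨S, hS1, hS2⟩ := Pool.Agent.H107.ME.dim_family φ ht one_le_ht
      (s := (n : ℝ) - 1 + ρ + 1) (by linarith) hσ (J := Unit) (fun _ => Bad n x a b A B)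
      (fun _ ε hε => count hs0 hC ε hε)
    refine ⟨S, ?_, fun z hz => (hS2 z hz ()).subset ?_⟩
    · rwa [show (n : ℝ) - 1 + ρ + 1 = n + ρ by ring] at hS1
    · rintro p ⟨hp1, hpab, hnear, hM⟩
      refine ⟨hbad B p hp1 hpab hM, ?_⟩
      rw [ht_eq hp1]
      exact hnear

end Pool.Agent.Results.MP_bbc1fa_nt.RationalPointsNear
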