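import Pool.Agent.Results.MP_bbc1fa_nt.AlmostAllTuples
import Pool.Agent.V11300.PA.Classes

/-!
# The four exponentials conjecture for the groups generated by `N` and `u_j + x_i N`, for ALL integers `N`, `u_j` in the
residue classes modulo `p ^ f` of almost every `p`-adic point, with a lower bound for the determinants

Let `x_1, …, x_k` be distinct rational numbers, `a < b` with `a + x_i > 0`, `n ≥ 1`, `A ≥ 0` and
`ρ > 1 - 1 / (3 ^ (k n) + 1)`. There is a real number `B` such that for all primes `p` and all `κ > 0`: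

* for all `(α_0, α)` in `ℤ_p × ℤ_p ^ n` outside of a set of Hausdorff dimension at most `κ (n + ρ)` and all large `f`, ALL
  integers `1 ≤ N ≤ p ^ (κ f)` and ALL `n`-tuples `u` of integers in `[a N, b N]` with `N ≡ α_0` and `u_j ≡ α_j mod p ^ f`
  satisfy: every `2 × 2` matrix `(log m_ij)`, where the `m_ij` are products `N ^ c_0 ∏ (u_j + x_i N) ^ c_(j,i)` with integral
  exponents of absolute value at most `N ^ A`, with `ℚ`-linearly independent rows and `ℚ`-linearly independent columns,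
  has a determinant of absolute value greater than `N ^ (-B)`;
* given countably many sequences `(N_{s,f})_f` with `1 ≤ N_{s,f} ≤ p ^ (κ f)`, the same holds with `N = N_{s,f}` for all `α`
  in `ℤ_p ^ n` outside of a set of Hausdorff dimension at most `κ (n - 1 + ρ)`, all `s` and all large `f`.

(The spaces have dimensions `n + 1` and `n`.) The proof combines the starting result `AlmostAllTuples` with a covering
argument. The definitions `Products` and `logMatrix` are those of that file.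
-/

set_option autoImplicit false

open MeasureTheory

namespace Pool.Agent.Results.MP_bbc1fa_nt.TuplesInResidueClasses

open Pool.Agent.Results.MP_bbc1fa_nt.AlmostAllTuples

/-- Every `2 × 2` matrix `(log m_ij)`, `m_ij` in `Products x N u (N ^ A)`, with `ℚ`-linearly independent rows and
`ℚ`-linearly independent columns has a determinant of absolute value greater than `N ^ (-B)`. -/
def Measured {n k : ℕ} (x : Fin k → ℚ) (A B : ℝ) (N : ℕ) (u : Fin n → ℤ) : Prop :=
  ∀ M : Matrix (Fin 2) (Fin 2) ℚ, (∀ i j, M i j ∈ Products x N u ((N : ℝ) ^ A)) →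
    LinearIndependent ℚ (fun i : Fin 2 => fun j : Fin 2 => logMatrix M i j) →
    LinearIndependent ℚ (fun j : Fin 2 => fun i : Fin 2 => logMatrix M i j) →
    (N : ℝ) ^ (-B) < |(logMatrix M).det|

theorem mem_exceptional {n k : ℕ} {x : Fin k → ℚ} {a b A B : ℝ} {N : ℕ} {u : Fin n → ℤ}
    (hu : ∀ j, a * N ≤ u j ∧ u j ≤ b * N) (h : ¬ Measured x A B N u) : u ∈ Exceptional n x a b A B N := by
  unfold Measured at h
  push Not at h
  obtain ⟨M, h1, h2, h3, h4⟩ := h
  exact ⟨hu, M, h1, h2, h3, h4⟩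

theorem result (n k : ℕ) (hn : 1 ≤ n) (x : Fin k → ℚ) (hx : Function.Injective x) (a b : ℝ) (hab : a < b)
    (hpos : ∀ i, 0 < a + x i) (A ρ : ℝ) (hA : 0 ≤ A) (hρ : 1 - 1 / ((3 : ℝ) ^ (k * n) + 1) < ρ) :
    ∃ B : ℝ, ∀ (p : ℕ) [Fact p.Prime] (κ : ℝ), 0 < κ →
      (∃ E : Set (ℤ_[p] × (Fin n → ℤ_[p])), dimH E ≤ ENNReal.ofReal (κ * ((n : ℝ) + ρ)) ∧
        ∀ (α₀ : ℤ_[p]) (α : Fin n → ℤ_[p]), (α₀, α) ∉ E → ∃ f₀ : ℕ, ∀ f : ℕ, f₀ ≤ f → ∀ (N : ℕ) (u : Fin n → ℤ),
          1 ≤ N → (N : ℝ) ≤ (p : ℝ) ^ (κ * f) → (∀ j, a * N ≤ u j ∧ u j ≤ b * N) →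
          (p : ℤ_[p]) ^ f ∣ (N : ℤ_[p]) - α₀ → (∀ j, (p : ℤ_[p]) ^ f ∣ (u j : ℤ_[p]) - α j) → Measured x A B N u) ∧
      ∀ N : ℕ → ℕ → ℕ, (∀ s f, 1 ≤ N s f ∧ (N s f : ℝ) ≤ (p : ℝ) ^ (κ * f)) →
        ∃ E : Set (Fin n → ℤ_[p]), dimH E ≤ ENNReal.ofReal (κ * ((n : ℝ) - 1 + ρ)) ∧
          ∀ α : Fin n → ℤ_[p], α ∉ E → ∀ s : ℕ, ∃ f₀ : ℕ, ∀ f : ℕ, f₀ ≤ f → ∀ u : Fin n → ℤ,
            (∀ j, a * N s f ≤ u j ∧ u j ≤ b * N s f) → (∀ j, (p : ℤ_[p]) ^ f ∣ (u j : ℤ_[p]) - α j) →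
            Measured x A B (N s f) u := by
  obtain ⟨B, C, hC⟩ := AlmostAllTuples.result n k hn x hx a b hab hpos A ρ hA hρ
  have hn1 : (1 : ℝ) ≤ n := by exact_mod_cast hn
  have hρ0 : 0 < ρ := by
    have h3 : (1 : ℝ) ≤ (3 : ℝ) ^ (k * n) := one_le_pow₀ (by norm_num)
    have h4 : 1 / ((3 : ℝ) ^ (k * n) + 1) ≤ 1 := by
      rw [div_le_one (by positivity)]
      linarith
    linarith
  -- the exceptional tuples for one `N`
  have hone : ∀ N T : ℕ, 1 ≤ N → N ≤ T → (Exceptional n x a b A B N).Finite ∧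
      ((Exceptional n x a b A B N).ncard : ℝ) ≤ |C| * (T : ℝ) ^ ((n : ℝ) - 1 + ρ) := by
    intro N T hN hNT
    obtain ⟨h1, h2⟩ := hC N hN
    refine ⟨h1, h2.trans (mul_le_mul (le_abs_self C) ?_ (by positivity) (abs_nonneg C))⟩
    exact Real.rpow_le_rpow (Nat.cast_nonneg _) (by exact_mod_cast hNT) (by linarith)
  refine ⟨B, fun p hp κ hκ => ⟨?_, fun N hN => ?_⟩⟩
  · have hp1 : (1 : ℝ) < p := by exact_mod_cast hp.out.one_lt
    obtain ⟨E, hE, h⟩ := Pool.Agent.V11300.PA.general (M := ℤ_[p] × (Fin n → ℤ_[p])) (Q := ℕ × (Fin n → ℤ))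
      (fun t => ((t.1 : ℤ_[p]), fun j => (t.2 j : ℤ_[p]))) (fun t => t.1) hp1 (s := (n : ℝ) + ρ) (κ := κ)
      (by linarith) hκ (fun _ _ => {t | 1 ≤ t.1 ∧ t.2 ∈ Exceptional n x a b A B t.1}) (fun _ => |C|) (by
        intro _ _ T hT
        have hT0 : (0 : ℝ) < T := by exact_mod_cast hT
        have hsub : {t : ℕ × (Fin n → ℤ) | t ∈ {t : ℕ × (Fin n → ℤ) | 1 ≤ t.1 ∧ t.2 ∈ Exceptional n x a b A B t.1} ∧
            t.1 ≤ T} ⊆ ⋃ N ∈ Finset.Icc 1 T, (fun u : Fin n → ℤ => (N, u)) '' Exceptional n x a b A B N := by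
          rintro ⟨N, u⟩ ⟨⟨h1, h2⟩, h3⟩
          simp only at h1 h2 h3
          exact Set.mem_biUnion (x := N) (Finset.mem_coe.2 (Finset.mem_Icc.2 ⟨h1, h3⟩)) ⟨u, h2, rfl⟩
        have hfin : (⋃ N ∈ Finset.Icc 1 T, (fun u : Fin n → ℤ => (N, u)) '' Exceptional n x a b A B N).Finite := by
          refine Set.Finite.biUnion (Finset.finite_toSet _) fun N hN => ?_
          exact (hone N N (Finset.mem_Icc.1 (Finset.mem_coe.1 hN)).1 le_rfl).1.image _
        refine ⟨hfin.subset hsub, ?_⟩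
        have h2 := (Set.ncard_le_ncard hsub hfin).trans (Finset.set_ncard_biUnion_le _ _)
        refine ((Nat.cast_le (α := ℝ)).2 h2).trans ?_
        rw [Nat.cast_sum]
        have h3 : ∑ N ∈ Finset.Icc 1 T,
            (((fun u : Fin n → ℤ => (N, u)) '' Exceptional n x a b A B N).ncard : ℝ) ≤
            ∑ _N ∈ Finset.Icc 1 T, |C| * (T : ℝ) ^ ((n : ℝ) - 1 + ρ) := by
          refine Finset.sum_le_sum fun N hN => ?_
          rw [Finset.mem_Icc] at hN
          rw [Set.ncard_image_of_injective _ fun x y h => (Prod.mk.inj h).2]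
          exact (hone N T hN.1 hN.2).2
        refine h3.trans (le_of_eq ?_)
        rw [Finset.sum_const, Nat.card_Icc, nsmul_eq_mul, Nat.add_sub_cancel]
        have e : (T : ℝ) ^ ((n : ℝ) + ρ) = (T : ℝ) ^ (1 : ℝ) * (T : ℝ) ^ ((n : ℝ) - 1 + ρ) := by
          rw [← Real.rpow_add hT0]
          congr 1
          ring
        rw [e, Real.rpow_one]
        ring)
    refine ⟨E, hE, fun α₀ α hα => ?_⟩
    obtain ⟨f₀, hf⟩ := h (α₀, α) hα 0
    refine ⟨f₀, fun f hf1 N u hN hNp hu hd0 hd => ?_⟩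
    by_contra hcon
    refine hf f hf1 (N, u) hNp ?_ ⟨hN, mem_exceptional hu hcon⟩
    rw [Prod.dist_eq]
    refine max_le ?_ ?_
    · rw [dist_eq_norm]
      exact Pool.Agent.V11300.PA.dist_le_of_dvd p hd0
    · rw [dist_pi_le_iff (by positivity)]
      intro j
      rw [dist_eq_norm]
      exact Pool.Agent.V11300.PA.dist_le_of_dvd p (hd j)
  · have hp1 : (1 : ℝ) < p := by exact_mod_cast hp.out.one_lt
    obtain ⟨E, hE, h⟩ := Pool.Agent.V11300.PA.general (M := Fin n → ℤ_[p]) (Q := ℕ × (Fin n → ℤ))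
      (fun t => fun j => (t.2 j : ℤ_[p])) (fun t => t.1) hp1 (s := (n : ℝ) - 1 + ρ) (κ := κ)
      (by linarith) hκ (fun s f => {t | t.1 = N s f ∧ t.2 ∈ Exceptional n x a b A B (N s f)}) (fun _ => |C|) (by
        intro s f T hT
        rcases le_or_gt (N s f) T with hNT | hNT
        · obtain ⟨h1, h2⟩ := hone (N s f) T (hN s f).1 hNT
          have hsub : {t : ℕ × (Fin n → ℤ) | t ∈ {t : ℕ × (Fin n → ℤ) | t.1 = N s f ∧
              t.2 ∈ Exceptional n x a b A B (N s f)} ∧ t.1 ≤ T} ⊆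
              (fun u : Fin n → ℤ => (N s f, u)) '' Exceptional n x a b A B (N s f) := by
            rintro ⟨N', u⟩ ⟨⟨h1, h2⟩, h3⟩
            simp only at h1 h2 h3
            subst h1
            exact ⟨u, h2, rfl⟩
          refine ⟨(h1.image _).subset hsub, ?_⟩
          have h3 := Set.ncard_le_ncard hsub (h1.image _)
          rw [Set.ncard_image_of_injective _ fun x y h => (Prod.mk.inj h).2] at h3
          exact ((Nat.cast_le (α := ℝ)).2 h3).trans h2
        · have he : {t : ℕ × (Fin n → ℤ) | t ∈ {t : ℕ × (Fin n → ℤ) | t.1 = N s f ∧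
              t.2 ∈ Exceptional n x a b A B (N s f)} ∧ t.1 ≤ T} = ∅ := by
            ext ⟨N', u⟩
            simp only [Set.mem_ofPred_eq, Set.mem_empty_iff_false, iff_false, not_and, not_le, and_imp]
            intro h1 _
            rw [h1]
            exact hNT
          rw [he]
          refine ⟨Set.finite_empty, ?_⟩
          rw [Set.ncard_empty, Nat.cast_zero]
          positivity)
    refine ⟨E, hE, fun α hα s => ?_⟩
    obtain ⟨f₀, hf⟩ := h α hα s
    refine ⟨f₀, fun f hf1 u hu hd => ?_⟩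
    by_contra hcon
    refine hf f hf1 (N s f, u) (hN s f).2 ?_ ⟨rfl, mem_exceptional hu hcon⟩
    rw [dist_pi_le_iff (by positivity)]
    intro j
    rw [dist_eq_norm]
    exact Pool.Agent.V11300.PA.dist_le_of_dvd p (hd j)

end Pool.Agent.Results.MP_bbc1fa_nt.TuplesInResidueClasses
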