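import Pool.Agent.Results.MP_bbc1fa_nt.AlmostAllTuples
import Pool.Agent.V11326.WI

/-!
# The four exponentials conjecture for the groups generated by `N` and `u_j + x_i N`, for ALL integers `u_j` in windows around
`α_j N`, with a lower bound for the determinants

Let `x_1, …, x_k` be distinct rational numbers, `a < b` with `a + x_i > 0`, `n ≥ 1`, `A ≥ 0` and
`ρ > 1 - 1 / (3 ^ (k n) + 1)`. There is a real number `B` such that for all sequences `N_0, N_1, …` of positive integers with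
exponent of convergence at most `τ` and all `θ < 1` there is a set `F ⊆ ℝ ^ n` of Hausdorff dimension at most
`(n - 1 + ρ + τ) / (1 - θ)`, of measure zero if `τ + n θ < 1 - ρ`, with the following property. For all `α` outside `F` and
all large `s`, ALL `n`-tuples `u` of integers in `[a N_s, b N_s]` with `|u_j - α_j N_s| ≤ N_s ^ θ` for all `j` satisfy:
every `2 × 2` matrix `(log α_ij)`, where the `α_ij` are products `N_s ^ c_0 ∏ (u_j + x_i N_s) ^ c_(j,i)` with integral
exponents of absolute value at most `N_s ^ A`, with `ℚ`-linearly independent rows and `ℚ`-linearly independent columns,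
has a determinant of absolute value greater than `N_s ^ (-B)`.

The proof combines the starting result `AlmostAllTuples` with a covering argument in `ℝ ^ n`. The definitions `Products`
and `logMatrix` are those of that file.
-/

set_option autoImplicit false

open MeasureTheory

namespace Pool.Agent.Results.MP_bbc1fa_nt.TuplesInWindows

open Pool.Agent.Results.MP_bbc1fa_nt.AlmostAllTuples

/-- The exponent of convergence of the sequence `v` is at most `τ`: the sum of the `v_n ^ (-p)` converges for all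
`p > τ`. -/
def ExpLe (v : ℕ → ℝ) (τ : ℝ) : Prop := ∀ p : ℝ, τ < p → Summable fun n => (v n) ^ (-p)

theorem result (n k : ℕ) (hn : 1 ≤ n) (x : Fin k → ℚ) (hx : Function.Injective x) (a b : ℝ) (hab : a < b)
    (hpos : ∀ i, 0 < a + x i) (A ρ : ℝ) (hA : 0 ≤ A) (hρ : 1 - 1 / ((3 : ℝ) ^ (k * n) + 1) < ρ) :
    ∃ B : ℝ, ∀ (N : ℕ → ℕ) (τ θ : ℝ), (∀ s, 1 ≤ N s) → 0 ≤ τ → ExpLe (fun s => (N s : ℝ)) τ → θ < 1 →
      ∃ F : Set (Fin n → ℝ), dimH F ≤ ENNReal.ofReal (((n : ℝ) - 1 + ρ + τ) / (1 - θ)) ∧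
        (τ + n * θ < 1 - ρ → volume F = 0) ∧
        ∀ α : Fin n → ℝ, α ∉ F → ∃ s₀ : ℕ, ∀ s : ℕ, s₀ ≤ s → ∀ u : Fin n → ℤ,
          (∀ j, a * N s ≤ u j ∧ u j ≤ b * N s) → (∀ j, |(u j : ℝ) - α j * N s| ≤ (N s : ℝ) ^ θ) →
          ∀ M : Matrix (Fin 2) (Fin 2) ℚ, (∀ i j, M i j ∈ Products x (N s) u ((N s : ℝ) ^ A)) →
            LinearIndependent ℚ (fun i : Fin 2 => fun j : Fin 2 => logMatrix M i j) →
            LinearIndependent ℚ (fun j : Fin 2 => fun i : Fin 2 => logMatrix M i j) →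
            (N s : ℝ) ^ (-B) < |(logMatrix M).det| := by
  obtain ⟨B, C, hC⟩ := AlmostAllTuples.result n k hn x hx a b hab hpos A ρ hA hρ
  have hn1 : (1 : ℝ) ≤ n := by exact_mod_cast hn
  have hρ0 : 0 < ρ := by
    have h3 : (1 : ℝ) ≤ (3 : ℝ) ^ (k * n) := one_le_pow₀ (by norm_num)
    have h4 : 1 / ((3 : ℝ) ^ (k * n) + 1) ≤ 1 := by
      rw [div_le_one (by positivity)]
      linarith
    linarith
  refine ⟨B, fun N τ θ hN hτ hNτ hθ => ?_⟩
  have hv : ∀ s, (1 : ℝ) ≤ N s := fun s => by exact_mod_cast hN s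
  obtain ⟨F, hF, h⟩ := Pool.Agent.V11326.WK.windowsK (E := Fin n → ℝ) (fun s => Exceptional n x a b A B (N s))
    (fun _ u => fun j => (u j : ℝ)) (v := fun s => (N s : ℝ)) (s := (n : ℝ) - 1 + ρ) hv hτ hNτ (by linarith) hθ (by
      intro A' ε hε
      refine ⟨|C|, 0, fun s _ => ?_⟩
      obtain ⟨h1, h2⟩ := hC (N s) (hN s)
      have hsub : {u | u ∈ Exceptional n x a b A B (N s) ∧ ‖(fun j => (u j : ℝ))‖ ≤ ((A' : ℝ) + 1) * (N s : ℝ)} ⊆
        Exceptional n x a b A B (N s) := fun u hu => hu.1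
      refine ⟨h1.subset hsub, ?_⟩
      refine ((Nat.cast_le (α := ℝ)).2 (Set.ncard_le_ncard hsub h1)).trans (h2.trans ?_)
      refine mul_le_mul (le_abs_self C) ?_ (by positivity) (abs_nonneg C)
      exact Real.rpow_le_rpow_of_exponent_le (hv s) (by linarith))
  have hcard : (Fintype.card (Fin n) : ℝ) = n := by rw [Fintype.card_fin]
  refine ⟨F, hF, fun hc => ?_, fun α hα => ?_⟩
  · refine Pool.Agent.V11326.WI.null (c := 1 - ρ) (by rw [hcard]; linarith) hτ hθ ?_ (by rw [hcard]; exact hc)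
    rw [hcard]
    have e : (n : ℝ) - (1 - ρ) + τ = (n : ℝ) - 1 + ρ + τ := by ring
    rw [e]
    exact hF
  · obtain ⟨s₀, hs⟩ := h α hα
    refine ⟨s₀, fun s hs1 u hu hw M hM hrow hcol => ?_⟩
    by_contra hcon
    push Not at hcon
    refine absurd ?_ (not_le.2 (hs s hs1 u ⟨hu, M, hM, hrow, hcol, hcon⟩))
    rw [pi_norm_le_iff_of_nonneg (Real.rpow_nonneg (by linarith [hv s]) _)]
    intro j
    rw [Pi.sub_apply, Pi.smul_apply, smul_eq_mul, Real.norm_eq_abs, mul_comm (N s : ℝ)]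
    exact hw j

end Pool.Agent.Results.MP_bbc1fa_nt.TuplesInWindows
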